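import Pool.Agent.H795R3.PeriodFam

/-!
# MP_5591bc_ag: a family whose period points are not dense in the fibres of `B_P`

For `c > 0` algebraic let `E_c : y² = x (x - 1) (x + c)` and let `E_c^{(s)} : s y² = x (x - 1) (x + c)`
be its quadratic twists. The abelian surfaces `A_s = E_c × E_c^{(s)}` form a smooth projective
family over `S = 𝔾_m`. We take `j = 1`. All fibres have isomorphic Hodge structures, so the Hodge
locus is empty, and at every algebraic point `s₀` the closure of the point `P(s₀)` is strictly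
smaller than the fibre `B_{P, s₀}`.
-/

namespace Pool.Agent.Results.MP_5591bc_ag.ProductWithTwist

open Pool.Agent.H795R3.PeriodFam

theorem result (c : ℝ) (hc : 0 < c) (_hca : IsAlgebraic ℚ c) :
    (∀ s s' : ℂ, s ≠ 0 → s' ≠ 0 → HodgeIso c s s') ∧
    ∀ s₀ : ℂ, s₀ ≠ 0 → IsAlgebraic ℚ s₀ →
      (∀ γ : Fin 4 → ℝ → Pt, Generates c s₀ γ → perMat γ ∈ GL4 →
        ∃ Γ : ℂ → Fin 4 → ℝ → Pt, Γ s₀ = γ ∧ IsLocalFrame c GL4 (Metric.ball s₀ ‖s₀‖) Γ ∧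
          ∀ G, graph (Metric.ball s₀ ‖s₀‖) Γ ⊆ G →
            ptClosure GL4 (perMat (Γ s₀)) ⊂ {M | (s₀, M) ∈ BVar GL4 G}) ∧
      (∀ (ι : Type) (γ : ι → ℝ → Pt), Generates c s₀ γ →
        ∃ Γ : ℂ → ι → ℝ → Pt, Γ s₀ = γ ∧
          IsLocalFrame c Set.univ (Metric.ball s₀ ‖s₀‖) Γ ∧
          ∀ G, graph (Metric.ball s₀ ‖s₀‖) Γ ⊆ G →
            ptClosure Set.univ (perMat (Γ s₀)) ⊂ {M | (s₀, M) ∈ BVar Set.univ G}) ∧
      (∃ (ι : Type) (γ : ι → ℝ → Pt), Generates c s₀ γ) := by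
  refine ⟨fun s s' hs hs' => hodgeIso_all _ hs hs', ?_⟩
  intro s₀ h0 ha
  refine ⟨?_, ?_, ?_⟩
  · intro γ h hM
    refine ⟨frame s₀ γ, frame_self h0 γ, isLocalFrame_frame GL4_stable h0 h hM, ?_⟩
    intro G hG
    rw [frame_self h0]
    exact strict GL4_stable hc h0 ha h hM hG
  · intro ι γ h
    have hY : ∀ ρ : ℂ, ρ ≠ 0 → ∀ M ∈ (Set.univ : Set (Matrix (Fin 4) ι ℂ)), Dm ρ M ∈ Set.univ :=
      fun _ _ _ _ => Set.mem_univ _
    refine ⟨frame s₀ γ, frame_self h0 γ, isLocalFrame_frame hY h0 h (Set.mem_univ _), ?_⟩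
    intro G hG
    rw [frame_self h0]
    exact strict hY hc h0 ha h (Set.mem_univ _) hG
  · refine ⟨{γ : ℝ → Pt // IsLoop c s₀ γ}, fun γ => γ.1, fun γ => γ.2, ?_⟩
    unfold Lam
    congr 1
    ext v
    constructor
    · rintro ⟨γ, rfl⟩
      exact ⟨γ.1, γ.2, rfl⟩
    · rintro ⟨γ, h, rfl⟩
      exact ⟨⟨γ, h⟩, rfl⟩

end Pool.Agent.Results.MP_5591bc_ag.ProductWithTwist
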